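import Pool.Agent.H18.VZ.Targets
import Pool.Agent.H66.VG.G1

/-!
# Board `vz_modules`, row KAP: the generic point of a hypersurface, with derivations
-/

set_option autoImplicit false

open MvPolynomial
open Pool.Agent.H12.ZD (pmap)
open Pool.Agent.H18.HIT Pool.Agent.H18.HX Pool.Agent.H18.VZ

namespace Pool.Agent.H35.VZ

section basic

variable {N : ℕ} {k : Type} [Field k]

theorem degreeOf_pderiv_lt (j : Fin N) (h : Po N k) (h0 : 0 < degreeOf j h) :
    degreeOf j (pderiv j h) < degreeOf j h := by
  rw [degreeOf_lt_iff h0]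
  intro d hd
  rw [mem_support_iff, coeff_pderiv] at hd
  have h1 : d + Finsupp.single j 1 ∈ h.support := by
    rw [mem_support_iff]
    exact left_ne_zero_of_mul hd
  have h2 := monomial_le_degreeOf j h1
  rw [Finsupp.add_apply, Finsupp.single_eq_same] at h2
  omega

theorem pderiv_ne_zero [CharZero k] (j : Fin N) (h : Po N k) (h0 : 0 < degreeOf j h) :
    pderiv j h ≠ 0 := by
  intro hz
  have h1 : degreeOf j h ≤ 0 := by
    rw [degreeOf_le_iff]
    intro d hd
    by_contra hcon
    obtain ⟨e, he⟩ : ∃ e : Fin N →₀ ℕ, d = e + Finsupp.single j 1 := by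
      refine ⟨d - Finsupp.single j 1, ?_⟩
      rw [tsub_add_cancel_of_le]
      rw [Finsupp.single_le_iff]
      omega
    have h2 := coeff_pderiv (i := j) h e
    rw [hz, coeff_zero, ← he] at h2
    rw [mem_support_iff] at hd
    have h3 : ((e j : k) + 1) ≠ 0 := by
      exact_mod_cast Nat.succ_ne_zero (e j)
    exact mul_ne_zero hd h3 h2.symm
  omega

/-- a nonzero multiple of `q` has positive degree in the variables of `q` -/
theorem degree_pos_of_dvd {j : Fin N} {q h : Po N k} (hq : 0 < degreeOf j q) (hd : q ∣ h)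
    (hh : h ≠ 0) : degreeOf j q ≤ degreeOf j h := by
  obtain ⟨s, rfl⟩ := hd
  have hq0 : q ≠ 0 := left_ne_zero_of_mul hh
  have hs0 : s ≠ 0 := right_ne_zero_of_mul hh
  rw [degreeOf_mul_eq hq0 hs0]
  omega

theorem exists_degree_pos {q : Po N k} (hq : Irreducible q) : ∃ i, 0 < degreeOf i q := by
  by_contra h
  push Not at h
  have h1 : q.vars = ∅ := by
    rw [Finset.eq_empty_iff_forall_notMem]
    intro i hi
    rw [mem_vars_iff_degreeOf_ne_zero] at hi
    exact hi (Nat.le_zero.1 (h i))
  rw [vars_eq_empty_iff_eq_C] at h1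
  have h2 : coeff 0 q ≠ 0 := by
    intro h3
    rw [h3, C_0] at h1
    exact hq.ne_zero h1
  apply hq.not_isUnit
  rw [h1]
  exact (isUnit_iff_ne_zero.2 h2).map C

/-- a family without the variable `i₀` is free modulo `q` -/
theorem algInd {A : Type} [CommRing A] [Algebra k A] (q : Po N k) (τ : Fin N → A)
    (hτ : ∀ c : Po N k, aeval τ c = 0 ↔ q ∣ c) (i₀ : Fin N) (hi : 0 < degreeOf i₀ q) :
    AlgebraicIndependent k (fun l : {l : Fin N // l ≠ i₀} => τ l.1) := by
  rw [algebraicIndependent_iff]
  intro p hp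
  have h1 : aeval τ (rename Subtype.val p) = 0 := by
    rw [aeval_rename]
    exact hp
  have h2 := (hτ _).1 h1
  by_contra hp0
  have h3 : (rename Subtype.val p : Po N k) ≠ 0 := by
    intro h4
    exact hp0 (rename_injective _ Subtype.val_injective (by rw [h4, map_zero]))
  have h4 := degree_pos_of_dvd hi h2 h3
  have h5 : degreeOf i₀ (rename Subtype.val p : Po N k) = 0 := by
    by_contra h6
    rw [← Ne, ← mem_vars_iff_degreeOf_ne_zero] at h6
    obtain ⟨l, -, hl⟩ := Finset.mem_image.1 (vars_rename Subtype.val p h6)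
    exact l.2 hl
  omega

/-- the family without the variable `i₀` is a transcendence basis -/
theorem trBasis {A : Type} [CommRing A] [IsDomain A] [Algebra k A] (q : Po N k) (hq : q ≠ 0)
    (τ : Fin N → A) (hτ : ∀ c : Po N k, aeval τ c = 0 ↔ q ∣ c)
    (hs : Function.Surjective (aeval τ : Po N k →ₐ[k] A)) (i₀ : Fin N)
    (hi : 0 < degreeOf i₀ q) :
    IsTranscendenceBasis k (fun l : {l : Fin N // l ≠ i₀} => τ l.1) := by
  classical
  have ind := algInd q τ hτ i₀ hi
  rw [ind.isTranscendenceBasis_iff_isAlgebraic]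
  have hgen : ∀ l : Fin N, IsAlgebraic (Algebra.adjoin k
      (Set.range fun l : {l : Fin N // l ≠ i₀} => τ l.1)) (τ l) := by
    intro l
    by_cases hl : l = i₀
    · by_contra hcon
      have h1 : AlgebraicIndependent k (fun o : Option {l : Fin N // l ≠ i₀} =>
          o.elim (τ l) fun l : {l : Fin N // l ≠ i₀} => τ l.1) :=
        (ind.option_iff_transcendental _).2 hcon
      obtain ⟨e, he⟩ : ∃ e : Fin N → Option {l : Fin N // l ≠ i₀}, e =
          fun l => if h : l = i₀ then none else some ⟨l, h⟩ := ⟨_, rfl⟩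
      have hinj : Function.Injective e := by
        intro a b hab
        rw [he] at hab
        by_cases ha : a = i₀ <;> by_cases hb : b = i₀
        · rw [ha, hb]
        · simp [ha, hb] at hab
        · simp [ha, hb] at hab
        · simp only [dif_neg ha, dif_neg hb] at hab
          exact congrArg Subtype.val (Option.some.inj hab)
      have h2 : (fun o : Option {l : Fin N // l ≠ i₀} =>
          o.elim (τ l) fun l : {l : Fin N // l ≠ i₀} => τ l.1) ∘ e = τ := by
        funext a
        rw [he]
        by_cases ha : a = i₀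
        · simp [ha, hl]
        · simp [ha]
      have h3 : aeval (fun o : Option {l : Fin N // l ≠ i₀} =>
          o.elim (τ l) fun l : {l : Fin N // l ≠ i₀} => τ l.1) (rename e q) = 0 := by
        rw [aeval_rename, h2]
        exact (hτ q).2 dvd_rfl
      have h4 := (algebraicIndependent_iff.1 h1) _ h3
      exact hq (rename_injective _ hinj (by rw [h4, map_zero]))
    · exact isAlgebraic_algebraMap (⟨τ l, Algebra.subset_adjoin ⟨⟨l, hl⟩, rfl⟩⟩ :
        Algebra.adjoin k (Set.range fun l : {l : Fin N // l ≠ i₀} => τ l.1))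
  refine ⟨fun a => ?_⟩
  obtain ⟨c, rfl⟩ := hs a
  induction c using MvPolynomial.induction_on with
  | C r =>
    rw [aeval_C]
    exact isAlgebraic_algebraMap (algebraMap k (Algebra.adjoin k
      (Set.range fun l : {l : Fin N // l ≠ i₀} => τ l.1)) r)
  | add p p' hp hp' =>
    rw [map_add]
    exact hp.add hp'
  | mul_X p l hp =>
    rw [map_mul, aeval_X]
    exact hp.mul (hgen l)

end basic

section ext

variable {N : ℕ} {k : Type} [Field k]

/-- the class of a polynomial as a polynomial in the class of `X 0` -/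
theorem eval_fse {B : Type} [CommRing B] (f : Po (N + 1) k →+* B) (c : Po (N + 1) k) :
    (finSuccEquiv k N c).eval₂ (f.comp (rename Fin.succ : Po N k →ₐ[k] Po (N + 1) k).toRingHom)
      (f (X 0)) = f c := by
  have h1 : (Polynomial.eval₂RingHom
      (f.comp (rename Fin.succ : Po N k →ₐ[k] Po (N + 1) k).toRingHom) (f (X 0))).comp
      (finSuccEquiv k N : Po (N + 1) k →+* Polynomial (Po N k)) = f := by
    refine MvPolynomial.ringHom_ext (fun a => ?_) (fun i => ?_)
    · simp [finSuccEquiv_apply]
    · refine Fin.cases ?_ (fun j => ?_) i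
      · simp [finSuccEquiv_X_zero]
      · simp [finSuccEquiv_X_succ]
  exact congrArg (fun g : Po (N + 1) k →+* B => g c) h1

/-- points of `H` over the generic point of the hypersurface -/
theorem exists_xi {κ : Type} [Field κ] [IsAlgClosed κ] [Algebra k κ] (q : Po N k)
    (τ : Fin N → κ) (hτ : ∀ c : Po N k, aeval τ c = 0 ↔ q ∣ c) (hq : Irreducible q)
    (P : Po (N + 1) k) (H : Ideal (Po (N + 1) k)) (hm : Mny P) (hP : Pdv P H q) :
    ∃ ξ : κ, ∀ c : Po (N + 1) k, aeval (Fin.cons ξ τ : Fin (N + 1) → κ) c = 0 ↔ c ∈ H := by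
  have hHp := hP.prime
  have hIp : (Ideal.span {q}).IsPrime := (Ideal.span_singleton_prime hq.ne_zero).2 hq.prime
  let D : Type := Po N k ⧸ Ideal.span {q}
  let B : Type := Po (N + 1) k ⧸ H
  have hDd : IsDomain D := Ideal.Quotient.isDomain (Ideal.span {q})
  have hBd : IsDomain B := Ideal.Quotient.isDomain H
  -- the map to `B`
  let g : D →+* B := Ideal.Quotient.lift (Ideal.span {q})
    ((Ideal.Quotient.mk H).comp (rename Fin.succ : Po N k →ₐ[k] Po (N + 1) k).toRingHom) (by
      intro a ha
      have h1 : up a ∈ H := (hP.iff a).2 (Ideal.mem_span_singleton.1 ha)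
      exact Ideal.Quotient.eq_zero_iff_mem.2 h1)
  have hg : ∀ c : Po N k, g (Ideal.Quotient.mk (Ideal.span {q}) c) =
      Ideal.Quotient.mk H (up c) := fun c => rfl
  have hginj : Function.Injective g := by
    rw [injective_iff_map_eq_zero]
    intro d hd
    obtain ⟨c, rfl⟩ := Ideal.Quotient.mk_surjective d
    rw [hg, Ideal.Quotient.eq_zero_iff_mem, hP.iff] at hd
    exact Ideal.Quotient.eq_zero_iff_mem.2 (Ideal.mem_span_singleton.2 hd)
  -- the map to `κ`
  let e : D →+* κ := Ideal.Quotient.lift (Ideal.span {q}) (aeval τ : Po N k →ₐ[k] κ).toRingHom (by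
      intro a ha
      exact (hτ a).2 (Ideal.mem_span_singleton.1 ha))
  have he : ∀ c : Po N k, e (Ideal.Quotient.mk (Ideal.span {q}) c) = aeval τ c := fun c => rfl
  have heinj : Function.Injective e := by
    rw [injective_iff_map_eq_zero]
    intro d hd
    obtain ⟨c, rfl⟩ := Ideal.Quotient.mk_surjective d
    rw [he, hτ] at hd
    exact Ideal.Quotient.eq_zero_iff_mem.2 (Ideal.mem_span_singleton.2 hd)
  let algB : Algebra D B := g.toAlgebra
  let algκ : Algebra D κ := e.toAlgebra
  have tfB : Module.IsTorsionFree D B := Module.isTorsionFree_iff_algebraMap_injective.2 hginj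
  have tfκ : Module.IsTorsionFree D κ := Module.isTorsionFree_iff_algebraMap_injective.2 heinj
  have hx0 : IsIntegral D (Ideal.Quotient.mk H (X 0) : B) := by
    refine ⟨(finSuccEquiv k N P).map (Ideal.Quotient.mk (Ideal.span {q})), hm.map _, ?_⟩
    rw [Polynomial.eval₂_map]
    have h1 := eval_fse (Ideal.Quotient.mk H) P
    have h2 : (Ideal.Quotient.mk H P : B) = 0 := Ideal.Quotient.eq_zero_iff_mem.2 hP.mem
    rw [h2] at h1
    exact h1
  have hint : Algebra.IsIntegral D B := by
    refine ⟨fun b => ?_⟩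
    obtain ⟨c, rfl⟩ := Ideal.Quotient.mk_surjective b
    induction c using MvPolynomial.induction_on with
    | C r =>
      have h1 : (Ideal.Quotient.mk H (C r) : B) =
          algebraMap D B (Ideal.Quotient.mk (Ideal.span {q}) (C r)) := by
        show _ = g (Ideal.Quotient.mk (Ideal.span {q}) (C r))
        rw [hg]
        unfold up
        rw [rename_C]
      rw [h1]
      exact isIntegral_algebraMap
    | add p p' hp hp' =>
      rw [map_add]
      exact hp.add hp'
    | mul_X p l hp =>
      rw [map_mul]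
      refine hp.mul ?_
      refine Fin.cases ?_ (fun j => ?_) l
      · exact hx0
      · have h1 : (Ideal.Quotient.mk H (X j.succ) : B) =
            algebraMap D B (Ideal.Quotient.mk (Ideal.span {q}) (X j)) := by
          show _ = g (Ideal.Quotient.mk (Ideal.span {q}) (X j))
          rw [hg]
          unfold up
          rw [rename_X]
        rw [h1]
        exact isIntegral_algebraMap
  have halg : Algebra.IsAlgebraic D B := inferInstance
  let ψ : B →ₐ[D] κ := IsAlgClosed.lift
  have hψ : ∀ d : D, ψ (algebraMap D B d) = e d := fun d => ψ.commutes d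
  have hker : RingHom.ker ψ = ⊥ := by
    refine Ideal.eq_bot_of_comap_eq_bot (R := D) ?_
    rw [eq_bot_iff]
    intro d hd
    have h1 : ψ (algebraMap D B d) = 0 := hd
    rw [hψ] at h1
    exact (injective_iff_map_eq_zero e).1 heinj d h1
  have hψinj : ∀ b : B, ψ b = 0 ↔ b = 0 := by
    intro b
    constructor
    · intro h
      have h1 : b ∈ RingHom.ker ψ := h
      rw [hker] at h1
      exact h1
    · rintro rfl
      exact map_zero ψ
  refine ⟨ψ (Ideal.Quotient.mk H (X 0)), fun c => ?_⟩
  have h1 : (aeval (Fin.cons (ψ (Ideal.Quotient.mk H (X 0))) τ : Fin (N + 1) → κ) :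
      Po (N + 1) k →ₐ[k] κ).toRingHom =
      (ψ : B →+* κ).comp (Ideal.Quotient.mk H) := by
    refine MvPolynomial.ringHom_ext (fun a => ?_) (fun i => ?_)
    · have h2 : (Ideal.Quotient.mk H (C a) : B) =
          algebraMap D B (Ideal.Quotient.mk (Ideal.span {q}) (C a)) := by
        show _ = g (Ideal.Quotient.mk (Ideal.span {q}) (C a))
        rw [hg]
        unfold up
        rw [rename_C]
      show aeval (Fin.cons (ψ (Ideal.Quotient.mk H (X 0))) τ : Fin (N + 1) → κ) (C a) =
        ψ (Ideal.Quotient.mk H (C a))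
      rw [h2, hψ, he, aeval_C, aeval_C]
    · show aeval (Fin.cons (ψ (Ideal.Quotient.mk H (X 0))) τ : Fin (N + 1) → κ) (X i) =
        ψ (Ideal.Quotient.mk H (X i))
      rw [aeval_X]
      refine Fin.cases ?_ (fun j => ?_) i
      · rfl
      · have h2 : (Ideal.Quotient.mk H (X j.succ) : B) =
            algebraMap D B (Ideal.Quotient.mk (Ideal.span {q}) (X j)) := by
          show _ = g (Ideal.Quotient.mk (Ideal.span {q}) (X j))
          rw [hg]
          unfold up
          rw [rename_X]
        rw [h2, hψ, he, aeval_X]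
        rfl
  have h2 : aeval (Fin.cons (ψ (Ideal.Quotient.mk H (X 0))) τ : Fin (N + 1) → κ) c =
      ψ (Ideal.Quotient.mk H c) :=
    congrArg (fun f : Po (N + 1) k →+* κ => f c) h1
  rw [h2, hψinj, Ideal.Quotient.eq_zero_iff_mem]

end ext

theorem pf_KAP : T_KAP := by
  classical
  intro N k _ _ _ q hq
  obtain ⟨i₀, hi⟩ := exists_degree_pos hq
  have hIp : (Ideal.span {q}).IsPrime := (Ideal.span_singleton_prime hq.ne_zero).2 hq.prime
  let D : Type := Po N k ⧸ Ideal.span {q}
  have hDd : IsDomain D := Ideal.Quotient.isDomain (Ideal.span {q})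
  let K : Type := FractionRing D
  let κ : Type := AlgebraicClosure K
  have hinj : Function.Injective (algebraMap D κ) := by
    rw [IsScalarTower.algebraMap_eq D K κ]
    exact (algebraMap K κ).injective.comp (IsFractionRing.injective D K)
  let τD : Fin N → D := fun l => Ideal.Quotient.mk (Ideal.span {q}) (X l)
  have haD : ∀ c : Po N k, aeval τD c = Ideal.Quotient.mk (Ideal.span {q}) c := by
    intro c
    have h1 : (aeval τD : Po N k →ₐ[k] D) = Ideal.Quotient.mkₐ k (Ideal.span {q}) := by
      refine MvPolynomial.algHom_ext fun i => ?_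
      rw [aeval_X]
      rfl
    rw [h1]
    rfl
  have hτD : ∀ c : Po N k, aeval τD c = 0 ↔ q ∣ c := by
    intro c
    rw [haD, Ideal.Quotient.eq_zero_iff_mem, Ideal.mem_span_singleton]
  have hsD : Function.Surjective (aeval τD : Po N k →ₐ[k] D) := by
    intro d
    obtain ⟨c, rfl⟩ := Ideal.Quotient.mk_surjective d
    exact ⟨c, haD c⟩
  have hτ : ∀ c : Po N k, aeval (fun l => algebraMap D κ (τD l)) c = 0 ↔ q ∣ c := by
    intro c
    have h1 : aeval (fun l => algebraMap D κ (τD l)) c = algebraMap D κ (aeval τD c) :=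
      MvPolynomial.aeval_algebraMap_apply κ τD c
    rw [h1, map_eq_zero_iff _ hinj, hτD]
  have hbD := trBasis q hq.ne_zero τD hτD hsD i₀ hi
  have hfs : FaithfulSMul D κ := (faithfulSMul_iff_algebraMap_injective _ _).2 hinj
  have halg : Algebra.IsAlgebraic D κ :=
    (IsFractionRing.comap_isAlgebraic_iff (A := D) (K := K) (C := κ)).2 inferInstance
  have hb : IsTranscendenceBasis k
      (fun l : {l : Fin N // l ≠ i₀} => algebraMap D κ (τD l.1)) :=
    hbD.algebraMap_comp (A := κ)
  refine ⟨κ, inferInstance, inferInstance, inferInstance, fun l => algebraMap D κ (τD l), i₀,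
    hτ, ?_, ?_, ?_⟩
  · intro hd
    have h1 := degree_pos_of_dvd hi hd (pderiv_ne_zero i₀ q hi)
    have h2 := degreeOf_pderiv_lt i₀ q hi
    omega
  · intro j hj
    obtain ⟨δ, hδ⟩ := Pool.Agent.H66.VG.g1 k κ {l : Fin N // l ≠ i₀}
      (fun l => algebraMap D κ (τD l.1)) hb (fun l => if l.1 = j then 1 else 0)
    exact ⟨δ, fun l hl => hδ ⟨l, hl⟩⟩
  · intro P H hm hP
    exact exists_xi q _ hτ hq P H hm hP

end Pool.Agent.H35.VZ
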